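import Mathlib

/-!
# Minkowski's theorem for pairs of integers of a number field
-/

set_option autoImplicit false
set_option linter.unusedSectionVars false

namespace Pool.Agent.Y812.KG

open NumberField NumberField.InfinitePlace NumberField.mixedEmbedding MeasureTheory
open ComplexConjugate Module
open scoped NNReal ENNReal

variable (F : Type) [Field F] [NumberField F]

/-- the body -/
def bdy (l : mixedSpace F) (f g : InfinitePlace F → ℝ≥0) :
    Set (mixedSpace F × mixedSpace F) :=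
  {p | p.1 + l * p.2 ∈ convexBodyLT F f ∧ p.2 ∈ convexBodyLT F g}

lemma isOpen_body (f : InfinitePlace F → ℝ≥0) : IsOpen (convexBodyLT F f) := by
  unfold convexBodyLT
  refine IsOpen.prod ?_ ?_
  · exact isOpen_set_pi Set.finite_univ fun w _ => Metric.isOpen_ball
  · exact isOpen_set_pi Set.finite_univ fun w _ => Metric.isOpen_ball

lemma isOpen_bdy (l : mixedSpace F) (f g : InfinitePlace F → ℝ≥0) : IsOpen (bdy F l f g) := by
  refine IsOpen.and ?_ ?_
  · exact (isOpen_body F f).preimage (by fun_prop)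
  · exact (isOpen_body F g).preimage (by fun_prop)

open scoped Classical in
lemma vol_bdy (l : mixedSpace F) (f g : InfinitePlace F → ℝ≥0) :
    (volume : Measure (mixedSpace F × mixedSpace F)) (bdy F l f g) =
      volume (convexBodyLT F f) * volume (convexBodyLT F g) := by
  have hm : MeasurableSet (bdy F l f g) := (isOpen_bdy F l f g).measurableSet
  rw [Measure.volume_eq_prod, Measure.prod_apply_symm hm]
  have h : ∀ y : mixedSpace F, volume ((fun x => (x, y)) ⁻¹' bdy F l f g) =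
      (convexBodyLT F g).indicator (fun _ => volume (convexBodyLT F f)) y := by
    intro y
    by_cases hy : y ∈ convexBodyLT F g
    · rw [Set.indicator_of_mem hy]
      have h1 : (fun x => (x, y)) ⁻¹' bdy F l f g =
          (fun x => x + l * y) ⁻¹' convexBodyLT F f := by
        ext x
        constructor
        · exact fun h => h.1
        · exact fun h => ⟨h, hy⟩
      rw [h1, measure_preimage_add_right]
    · rw [Set.indicator_of_notMem hy]
      have h1 : (fun x => (x, y)) ⁻¹' bdy F l f g = ∅ := by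
        ext x
        constructor
        · exact fun h => hy h.2
        · exact fun h => h.elim
      rw [h1, measure_empty]
  simp_rw [h]
  rw [lintegral_indicator (isOpen_body F g).measurableSet, lintegral_const,
    Measure.restrict_apply_univ]

lemma bdy_neg (l : mixedSpace F) (f g : InfinitePlace F → ℝ≥0) :
    ∀ x ∈ bdy F l f g, -x ∈ bdy F l f g := by
  intro x hx
  refine ⟨?_, ?_⟩
  · have h := convexBodyLT_neg_mem F f _ hx.1
    have e : (-x).1 + l * (-x).2 = -(x.1 + l * x.2) := by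
      rw [Prod.fst_neg, Prod.snd_neg]
      ring
    rwa [e]
  · exact convexBodyLT_neg_mem F g _ hx.2

lemma bdy_convex (l : mixedSpace F) (f g : InfinitePlace F → ℝ≥0) : Convex ℝ (bdy F l f g) := by
  have h1 := (convexBodyLT_convex F f).linear_preimage
    (LinearMap.fst ℝ (mixedSpace F) (mixedSpace F) +
      (LinearMap.mulLeft ℝ l) ∘ₗ LinearMap.snd ℝ (mixedSpace F) (mixedSpace F))
  have h2 := (convexBodyLT_convex F g).linear_preimage
    (LinearMap.snd ℝ (mixedSpace F) (mixedSpace F))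
  exact h1.inter h2

omit [NumberField F] in
/-- Minkowski's theorem for the product of a lattice with itself -/
lemma gen {E ι : Type*} [NormedAddCommGroup E] [NormedSpace ℝ E] [FiniteDimensional ℝ E]
    [SecondCountableTopology E] [MeasurableSpace E] [BorelSpace E] [Finite ι]
    (μ : Measure E) [μ.IsAddHaarMeasure] (b : Basis ι ℝ E) :
    ∃ C : ℝ≥0, ∀ S : Set (E × E), (∀ x ∈ S, -x ∈ S) → Convex ℝ S →
      (C : ℝ≥0∞) < (μ.prod μ) S → ∃ x ∈ Submodule.span ℤ (Set.range b),
        ∃ y ∈ Submodule.span ℤ (Set.range b), (x, y) ≠ 0 ∧ (x, y) ∈ S := by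
  have hfin : (μ.prod μ) (ZSpan.fundamentalDomain (b.prod b)) *
      (2 : ℝ≥0∞) ^ (finrank ℝ (E × E)) ≠ ⊤ :=
    (ENNReal.mul_lt_top (ZSpan.fundamentalDomain_isBounded _).measure_lt_top
      (ENNReal.pow_lt_top ENNReal.ofNat_lt_top)).ne
  refine ⟨((μ.prod μ) (ZSpan.fundamentalDomain (b.prod b)) *
      (2 : ℝ≥0∞) ^ (finrank ℝ (E × E))).toNNReal, fun S hS1 hS2 h => ?_⟩
  rw [ENNReal.coe_toNNReal hfin] at h
  have h_fund := ZSpan.isAddFundamentalDomain' (b.prod b) (μ.prod μ)
  have : Countable (Submodule.span ℤ (Set.range (b.prod b))).toAddSubgroup := by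
    change Countable (Submodule.span ℤ (Set.range (b.prod b)))
    infer_instance
  obtain ⟨⟨x, hx⟩, h_nz, h_mem⟩ := exists_ne_zero_mem_lattice_of_measure_mul_two_pow_lt_measure
    h_fund hS1 hS2 h
  rw [Submodule.mem_toAddSubgroup] at hx
  have h : Submodule.span ℤ (Set.range (b.prod b)) ≤
      (Submodule.span ℤ (Set.range b)).prod (Submodule.span ℤ (Set.range b)) := by
    rw [Submodule.span_le]
    rintro _ ⟨i | i, rfl⟩
    · rw [Basis.prod_apply]
      exact ⟨Submodule.subset_span ⟨i, rfl⟩, Submodule.zero_mem _⟩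
    · rw [Basis.prod_apply]
      exact ⟨Submodule.zero_mem _, Submodule.subset_span ⟨i, rfl⟩⟩
  have h1 := h hx
  refine ⟨x.1, h1.1, x.2, h1.2, fun h0 => h_nz ?_, h_mem⟩
  ext1
  exact h0

open scoped Classical in
lemma main1 : ∃ C : ℝ≥0, ∀ (l : mixedSpace F) (f g : InfinitePlace F → ℝ≥0),
    (C : ℝ≥0∞) < volume (convexBodyLT F f) * volume (convexBodyLT F g) →
    ∃ x y : 𝓞 F, ¬ (x = 0 ∧ y = 0) ∧
      mixedEmbedding F x + l * mixedEmbedding F y ∈ convexBodyLT F f ∧
      mixedEmbedding F y ∈ convexBodyLT F g := by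
  obtain ⟨C, hC⟩ := gen (volume : Measure (mixedSpace F)) (latticeBasis F)
  refine ⟨C, fun l f g h => ?_⟩
  rw [← vol_bdy F l f g] at h
  obtain ⟨x, hx, y, hy, h0, h1⟩ := hC _ (bdy_neg F l f g) (bdy_convex F l f g) h
  obtain ⟨a, ha⟩ := (mem_span_latticeBasis F).1 hx
  obtain ⟨c, hc⟩ := (mem_span_latticeBasis F).1 hy
  have ha' : mixedEmbedding F (a : F) = x := ha
  have hc' : mixedEmbedding F (c : F) = y := hc
  refine ⟨a, c, ?_, ?_, ?_⟩
  · rintro ⟨rfl, rfl⟩
    apply h0
    rw [← ha', ← hc']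
    simp
  · rw [ha', hc']
    exact h1.1
  · rw [hc']
    exact h1.2

/-- the multiplier -/
noncomputable def ell (lam : (F →+* ℂ) → ℂ) : mixedSpace F :=
  (fun w => (lam w.1.embedding).re, fun w => lam w.1.embedding)

lemma real_emb {w : InfinitePlace F} (hw : IsReal w) (x : F) :
    ((embedding_of_isReal hw x : ℝ) : ℂ) = w.embedding x := by
  simp

lemma mem1 (lam : (F →+* ℂ) → ℂ)
    (hlam : ∀ w, lam (ComplexEmbedding.conjugate w) = conj (lam w)) (f : InfinitePlace F → ℝ≥0)
    (x y : F) (h : mixedEmbedding F x + ell F lam * mixedEmbedding F y ∈ convexBodyLT F f)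
    (w : InfinitePlace F) :
    ‖w.embedding x + lam w.embedding * w.embedding y‖ ≤ f w := by
  rcases w.isReal_or_isComplex with hw | hw
  · have h1 := h.1 ⟨w, hw⟩ (Set.mem_univ _)
    rw [mem_ball_zero_iff] at h1
    have h2 : (lam w.embedding) = ((lam w.embedding).re : ℂ) := by
      have h3 : ComplexEmbedding.conjugate w.embedding = w.embedding :=
        ComplexEmbedding.isReal_iff.1 (isReal_iff.1 hw)
      have h4 := hlam w.embedding
      rw [h3] at h4
      exact (Complex.conj_eq_iff_re.1 h4.symm).symm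
    rw [h2, ← real_emb F hw x, ← real_emb F hw y, ← Complex.ofReal_mul, ← Complex.ofReal_add,
      Complex.norm_real]
    exact h1.le
  · have h1 := h.2 ⟨w, hw⟩ (Set.mem_univ _)
    rw [mem_ball_zero_iff] at h1
    exact h1.le

lemma prod_hom (A : (F →+* ℂ) → ℝ≥0) (hA : ∀ w, A (ComplexEmbedding.conjugate w) = A w) :
    ∏ w, A w = ∏ v : InfinitePlace F, A v.embedding ^ v.mult := by
  classical
  have h1 : ∀ φ : F →+* ℂ, A φ = A (mk φ).embedding := by
    intro φ
    rcases embedding_mk_eq φ with h | h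
    · rw [h]
    · rw [h, hA]
  rw [← Finset.prod_fiberwise Finset.univ (fun φ : F →+* ℂ => InfinitePlace.mk φ)]
  refine Finset.prod_congr rfl fun v _ => ?_
  rw [← card_filter_mk_eq, ← Finset.prod_const]
  refine Finset.prod_congr rfl fun φ hφ => ?_
  rw [h1 φ, (Finset.mem_filter.1 hφ).2]

open scoped Classical in
theorem mk0 : ∃ C : ℝ, 0 < C ∧
    ∀ (A B : (F →+* ℂ) → ℝ) (lam : (F →+* ℂ) → ℂ), (∀ w, 0 < A w) → (∀ w, 0 < B w) →
    (∀ w, A (ComplexEmbedding.conjugate w) = A w) → (∀ w, B (ComplexEmbedding.conjugate w) = B w) →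
    (∀ w, lam (ComplexEmbedding.conjugate w) = conj (lam w)) → 1 ≤ (∏ w, A w) * ∏ w, B w →
    ∃ x y : 𝓞 F, ¬ (x = 0 ∧ y = 0) ∧ ∀ w : F →+* ℂ,
      ‖w (x : F) + lam w * w (y : F)‖ ≤ C * A w ∧ ‖w (y : F)‖ ≤ C * B w := by
  obtain ⟨C₀, hC₀⟩ := main1 F
  refine ⟨(C₀ + 1 : ℝ≥0), by positivity, fun A B lam hA hB hAc hBc hlam hAB => ?_⟩
  set C : ℝ≥0 := C₀ + 1 with hC
  have hC1 : 1 ≤ C := by rw [hC]; exact le_add_self
  set A' : (F →+* ℂ) → ℝ≥0 := fun w => ⟨A w, (hA w).le⟩ with hA'
  set B' : (F →+* ℂ) → ℝ≥0 := fun w => ⟨B w, (hB w).le⟩ with hB'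
  have hA'c : ∀ w, A' (ComplexEmbedding.conjugate w) = A' w := fun w => Subtype.ext (hAc w)
  have hB'c : ∀ w, B' (ComplexEmbedding.conjugate w) = B' w := fun w => Subtype.ext (hBc w)
  have hAB' : 1 ≤ (∏ w, A' w) * ∏ w, B' w := by
    rw [← NNReal.coe_le_coe]
    push_cast
    exact hAB
  have hvol : ∀ A' : (F →+* ℂ) → ℝ≥0, (∀ w, A' (ComplexEmbedding.conjugate w) = A' w) →
      ((C * ∏ w, A' w : ℝ≥0) : ℝ≥0∞) ≤
        volume (convexBodyLT F fun v => C * A' v.embedding) := by
    intro A' hA'c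
    rw [convexBodyLT_volume]
    have h1 : ∏ v : InfinitePlace F, (C * A' v.embedding) ^ v.mult =
        C ^ (finrank ℚ F) * ∏ w, A' w := by
      rw [prod_hom F A' hA'c, ← sum_mult_eq, ← Finset.prod_pow_eq_pow_sum,
        ← Finset.prod_mul_distrib]
      exact Finset.prod_congr rfl fun v _ => mul_pow _ _ _
    rw [h1, ← ENNReal.coe_mul, ENNReal.coe_le_coe]
    have h2 : C ≤ C ^ (finrank ℚ F) := le_self_pow₀ hC1 finrank_pos.ne'
    calc C * ∏ w, A' w = 1 * (C * ∏ w, A' w) := (one_mul _).symm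
      _ ≤ convexBodyLTFactor F * (C ^ (finrank ℚ F) * ∏ w, A' w) := by
        gcongr
        exact one_le_convexBodyLTFactor F
  have hlt : (C₀ : ℝ≥0∞) < volume (convexBodyLT F fun v => C * A' v.embedding) *
      volume (convexBodyLT F fun v => C * B' v.embedding) := by
    refine lt_of_lt_of_le ?_ (mul_le_mul' (hvol A' hA'c) (hvol B' hB'c))
    rw [← ENNReal.coe_mul, ENNReal.coe_lt_coe]
    have h3 : (C * ∏ w, A' w) * (C * ∏ w, B' w) = C * C * ((∏ w, A' w) * ∏ w, B' w) := by ring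
    rw [h3]
    calc C₀ < C := by rw [hC]; exact lt_add_one C₀
      _ = C * 1 * 1 := by ring
      _ ≤ C * C * ((∏ w, A' w) * ∏ w, B' w) := by gcongr
  obtain ⟨x, y, hxy, h1, h2⟩ := hC₀ (ell F lam) _ _ hlt
  refine ⟨x, y, hxy, fun w => ?_⟩
  have h3 := mem1 F lam hlam _ _ _ h1 (InfinitePlace.mk w)
  have h4 : ‖(InfinitePlace.mk w).embedding (y : F)‖ ≤ C * B' (InfinitePlace.mk w).embedding := by
    have h5 := ((convexBodyLT_mem F _).1 h2 (InfinitePlace.mk w)).le
    rwa [← InfinitePlace.norm_embedding_eq] at h5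
  rcases embedding_mk_eq w with h | h
  · rw [h] at h3 h4
    exact ⟨h3, h4⟩
  · rw [h] at h3 h4
    rw [hlam, ComplexEmbedding.conjugate_coe_eq, ComplexEmbedding.conjugate_coe_eq, ← map_mul,
      ← map_add, Complex.norm_conj, hA'c] at h3
    rw [ComplexEmbedding.conjugate_coe_eq, Complex.norm_conj, hB'c] at h4
    exact ⟨h3, h4⟩

end Pool.Agent.Y812.KG
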