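import Pool.Agent.Y714.KG.Stm
import Pool.Agent.Y812.KG.MkBase

set_option autoImplicit false

namespace Pool.Agent.Y812.KG

theorem mk : Pool.Agent.Y714.KG.S_MK := by
  intro F _ _
  exact mk0 F

end Pool.Agent.Y812.KG
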