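import Pool.Agent.Y714.KG.Stm
import Pool.Agent.Y714.KE.BasU

/-!
# Project KG: units and sizes
-/

set_option autoImplicit false
set_option linter.unusedSectionVars false
set_option linter.unusedVariables false

namespace Pool.Agent.Y812.KG

open Pool.Agent.Y714.KG
open Pool.Agent.Y714.KE (Al FA FU Em Ux dg cf cp vc cn nA sm un SYM QY tt finrank_ne sum_finrank
  un_ne)
open Pool.Agent.Y714.KF (FI sp ct nm pm ext br ubas qf ineqs pm_smul ext_smul sum_log_unit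
  exists_unit_repr)
open NumberField FractionalIdeal Module Finset ComplexConjugate
open NumberField.Units NumberField.Units.dirichletUnitTheorem NumberField.InfinitePlace

variable (F : Type) [Field F] [NumberField F] {s : Type} [Fintype s] [DecidableEq s]
  {K : s → Type} [∀ i, Field (K i)] [∀ i, NumberField (K i)] [∀ i, Algebra F (K i)]

theorem finrank_mLF (v : Em K → ℂ × ℂ) (i : s) :
    (finrank ℚ (K i) : ℝ) * mLF F v i = ∑ σ : K i →+* ℂ, LGF F v ⟨i, σ⟩ := by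
  unfold mLF
  rw [mul_comm, div_mul_cancel₀ _ (finrank_ne i)]

variable (K) in
theorem suf : S_SUF F K := by
  intro hd v
  have h3 : (dg K : ℝ) ≠ 0 := by exact_mod_cast hd.ne'
  unfold uF
  simp_rw [mul_add]
  rw [sum_add_distrib, ← sum_mul, sum_finrank]
  simp_rw [finrank_mLF]
  rw [← Fintype.sum_sigma (fun e : Em K => LGF F v e), mul_div_cancel₀ _ h3]
  ring

theorem prod_fib (f : Em K → ℝ) : ∏ w : F →+* ℂ, ∏ e : Ef F K w, f e.1 = ∏ e, f e := by
  refine (Fintype.prod_sigma (fun p : (Σ w : F →+* ℂ, Ef F K w) => f p.2.1)).symm.trans ?_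
  have E : ∀ g : (Σ w : F →+* ℂ, Ef F K w) ≃ Em K, (∀ p, g p = p.2.1) →
      ∏ p : (Σ w : F →+* ℂ, Ef F K w), f p.2.1 = ∏ e, f e := by
    intro g hg
    refine Fintype.prod_equiv g _ _ fun p => ?_
    rw [hg]
  exact E (Equiv.sigmaFiberEquiv (fun e : Em K => rs F e)) fun p => rfl

theorem mLF_shift {v w : Em K → ℂ × ℂ} {c : Em K → ℝ} (h : ∀ e, LGF F w e = LGF F v e + c e)
    (i : s) : mLF F w i = mLF F v i + (∑ σ : K i →+* ℂ, c ⟨i, σ⟩) / finrank ℚ (K i) := by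
  unfold mLF
  simp_rw [h]
  rw [sum_add_distrib, add_div]

theorem gen_smul {J : Type} [Fintype J] [DecidableEq J] (v : J → ℂ × ℂ) (a : J → ℂ) (e : J)
    (hv : 0 < pm v) (hx : 0 < pm (ext v e)) (ha : ∀ e, a e ≠ 0) :
    (1 / 2) * (Real.log (pm (ext (fun j => a j • v j) e)) -
      Real.log (pm (fun j => a j • v j))) =
      (1 / 2) * (Real.log (pm (ext v e)) - Real.log (pm v)) + Real.log ‖a e‖ := by
  have hn : ∀ e, ‖a e‖ ^ 2 ≠ 0 := fun e => pow_ne_zero _ (norm_ne_zero_iff.2 (ha e))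
  have hp : ∏ f, ‖a f‖ ^ 2 ≠ 0 := prod_ne_zero_iff.2 fun e _ => hn _
  rw [pm_smul a v, ext_smul a v e, Real.log_mul (mul_ne_zero (hn e) hp) hx.ne',
    Real.log_mul (hn e) hp, Real.log_mul hp hv.ne', Real.log_pow]
  push_cast
  ring

theorem LGF_smul {v : Em K → ℂ × ℂ} (hv : ∀ w, 0 < pm (rv F w v))
    (hx : ∀ (w : F →+* ℂ) (e : Ef F K w), 0 < pm (ext (rv F w v) e)) (a : Em K → ℂ)
    (ha : ∀ e, a e ≠ 0) (e : Em K) :
    LGF F (fun e => a e • v e) e = LGF F v e + Real.log ‖a e‖ :=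
  gen_smul (rv F (rs F e) v) (fun f : Ef F K (rs F e) => a f.1) ⟨e, rfl⟩ (hv _) (hx _ _)
    (fun f => ha _)

theorem pF_smul (v : Em K → ℂ × ℂ) (a : Em K → ℂ) :
    pF F (fun e => a e • v e) = (∏ e, ‖a e‖ ^ 2) * pF F v := by
  unfold pF
  rw [← prod_fib F (fun e : Em K => ‖a e‖ ^ 2), ← prod_mul_distrib]
  refine prod_congr rfl fun w _ => ?_
  exact pm_smul (fun f : Ef F K w => a f.1) (rv F w v)

/-- the logarithmic vector of a component -/
noncomputable def lvF (v : Em K → ℂ × ℂ) (i : s) : logSpace (K i) :=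
  fun w => (mult w.1 : ℝ) * (LGF F v ⟨i, w.1.embedding⟩ - mLF F v i)

theorem ccF_eq (v : Em K → ℂ × ℂ) (j : Ux K) :
    ccF F v j = (ubas (K j.1)).repr (lvF F v j.1) j.2 := rfl

section

variable {v : Em K → ℂ × ℂ} (hv : ∀ w, 0 < pm (rv F w v))
  (hx : ∀ (w : F →+* ℂ) (e : Ef F K w), 0 < pm (ext (rv F w v) e))

include hv hx

theorem LGF_unit (u : ∀ i, (𝓞 (K i))ˣ) (e : Em K) :
    LGF F (fun e => e.2 (un u e.1) • v e) e = LGF F v e + Real.log ‖e.2 (un u e.1)‖ :=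
  LGF_smul F hv hx (fun e => e.2 (un u e.1)) (un_ne u) e

theorem mLF_unit (u : ∀ i, (𝓞 (K i))ˣ) (i : s) :
    mLF F (fun e => e.2 (un u e.1) • v e) i = mLF F v i := by
  rw [mLF_shift F (c := fun e => Real.log ‖e.2 (un u e.1)‖) (LGF_unit F hv hx u)]
  have h : ∑ σ : K i →+* ℂ, Real.log ‖σ (un u i)‖ = 0 := sum_log_unit (u i)
  rw [h, zero_div, add_zero]

theorem ccF_unit (u : ∀ i, (𝓞 (K i))ˣ) (j : Ux K) : ccF F (fun e => e.2 (un u e.1) • v e) j =
    ccF F v j + (ubas (K j.1)).repr (logEmbedding (K j.1) (Additive.ofMul (u j.1))) j.2 := by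
  have h : lvF F (fun e => e.2 (un u e.1) • v e) j.1 =
      lvF F v j.1 + logEmbedding (K j.1) (Additive.ofMul (u j.1)) := by
    funext w
    simp only [lvF, Pi.add_apply, logEmbedding_component]
    rw [LGF_unit F hv hx, mLF_unit F hv hx]
    have : ‖w.1.embedding (un u j.1)‖ = w.1 ((u j.1 : 𝓞 (K j.1)) : K j.1) :=
      norm_embedding_eq _ _
    simp only
    rw [this]
    ring
  rw [ccF_eq, ccF_eq, h, map_add]
  rfl

end

variable (K) in
theorem unf (hc : S_CRD F K) : S_UNF F K := by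
  intro hodd v hv
  have hx : ∀ (w : F →+* ℂ) (e : Ef F K w), 0 < pm (ext (rv F w v) e) := by
    intro w e
    obtain ⟨C, _, hC⟩ := ineqs (J := Ef F K w) (by rw [hc.2.1]; exact hodd)
    exact (hC _ (hv w)).1 e
  have hsum : ∀ u : ∀ i, (𝓞 (K i))ˣ, ∑ e : Em K, Real.log ‖e.2 (un u e.1)‖ = 0 := by
    intro u
    rw [Fintype.sum_sigma]
    exact sum_eq_zero fun i _ => sum_log_unit (u i)
  refine ⟨fun κ => ?_, fun u => ?_⟩
  · have hex : ∀ i, ∃ u : (𝓞 (K i))ˣ, ∀ j, (ubas (K i)).repr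
        (logEmbedding (K i) (Additive.ofMul u)) j = ((-⌊ccF F v ⟨i, j⟩ - κ ⟨i, j⟩⌋ : ℤ) : ℝ) :=
      fun i => exists_unit_repr (K := K i) fun j => -⌊ccF F v ⟨i, j⟩ - κ ⟨i, j⟩⌋
    choose u hu using hex
    refine ⟨u, fun j => ?_⟩
    rw [ccF_unit F hv hx, hu]
    have h1 := Int.floor_le (ccF F v j - κ j)
    have h2 := Int.lt_floor_add_one (ccF F v j - κ j)
    push_cast
    constructor <;> linarith
  · have h0 : ∏ e : Em K, ‖e.2 (un u e.1)‖ ^ 2 = 1 := by
      have hn : ∀ e : Em K, 0 < ‖e.2 (un u e.1)‖ := fun e => norm_pos_iff.2 (un_ne u e)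
      have h := hsum u
      rw [← Real.log_prod (fun e _ => (hn e).ne')] at h
      rw [prod_pow, Real.eq_one_of_pos_of_log_eq_zero (prod_pos fun e _ => hn e) h, one_pow]
    have h1 : pF F (fun e => e.2 (un u e.1) • v e) = pF F v := by
      rw [pF_smul F v (fun e : Em K => e.2 (un u e.1)), h0, one_mul]
    refine ⟨h1, fun i => ?_⟩
    unfold uF
    rw [h1, mLF_unit F hv hx u]
    have h2 : ∑ e, LGF F (fun e => e.2 (un u e.1) • v e) e = ∑ e, LGF F v e := by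
      simp_rw [LGF_unit F hv hx u]
      rw [sum_add_distrib, hsum u, add_zero]
    rw [h2]

end Pool.Agent.Y812.KG
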